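import Pool.Agent.L5helper74.RM.Meagre
import Pool.Agent.Q233.GLV.GTop2
import Pool.Agent.Q233.GSP.Main
import Pool.Agent.N250.SP.Surf

/-!
# Generic conformal metrics: tuples of unfolded levels
-/

set_option autoImplicit false

open Set Filter Topology MeasureTheory
open scoped Real
open Pool.Agent.Y262.QE

noncomputable section

namespace Pool.Agent.L5helper74.RM

open Pool.Agent.Results.MP_a825e8_mp.SurfacesLimitStatistics

variable (M : Type) [MetricSpace M] [CompactSpace M] [MeasurableSpace M] [BorelSpace M]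
    [Nonempty M] (μ : Measure M) (D : Data M)

/-- existence and uniqueness of the unfolded levels, mean spacing one -/
theorem basic (hD : D.IsSurf μ) (φ : C(M, ℝ)) :
    (surf D φ).IsSurf (area μ φ) ∧ ∃ x, IsUnfolded D μ φ x ∧
      Tendsto (fun T : ℝ => (number T x : ℝ) / T) atTop (𝓝 1) ∧
      ∀ y, IsUnfolded D μ φ y → y = x := by
  obtain ⟨E, hE, hE2⟩ := Pool.Agent.Q233.GSP.eig_facts μ D hD
  refine ⟨(tConf M μ D hD _ (Real.continuous_exp.comp φ.continuous) fun x => Real.exp_pos _).1, ?_⟩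
  obtain ⟨u, lam, h⟩ := Pool.Agent.Y264.QR.tEx M μ D hD inferInstance φ
  have hx : IsUnfolded D μ φ fun k => (area μ φ).real univ / (4 * π) * lam k :=
    ⟨u, lam, ⟨h.eig, h.mono, h.orth, h.total⟩, fun k => rfl⟩
  refine ⟨_, hx, ?_, ?_⟩
  · obtain ⟨-, -, h1⟩ := Pool.Agent.N250.SP.exists_spectra M μ D hD Unit (fun _ => φ)
      continuous_const (fun _ => _) (fun _ => hx)
    exact h1 ()
  · rintro y ⟨v, nu, hv, hy⟩
    funext k
    rw [hy k]
    congr 1
    rw [(hE2 φ u lam h).1 k, (hE2 φ v nu ⟨hv.eig, hv.mono, hv.orth, hv.total⟩).1 k]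

/-- the unfolded levels are nonnegative -/
theorem nonneg (hD : D.IsSurf μ) {φ : C(M, ℝ)} {x : ℕ → ℝ} (hx : IsUnfolded D μ φ x) (k : ℕ) :
    0 ≤ x k := by
  obtain ⟨hf, -⟩ := tFin M μ D hD
  haveI := hf
  haveI : CompleteSpace (Pool.Agent.Y264.QR.HF D μ) :=
    (Submodule.isClosed_topologicalClosure _).completeSpace_coe
  obtain ⟨i, a, hSf, hi, ha⟩ := Pool.Agent.Y264.QR.tPackF M μ D hD inferInstance
  obtain ⟨b, hB, hF, hA, hcmp, -⟩ :=
    Pool.Agent.Y264.QR.tFm M μ (Pool.Agent.Y264.QR.HF D μ) i a hSf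
  obtain ⟨hnn, -⟩ := Pool.Agent.Y264.QR.tLip M μ (Pool.Agent.Y264.QR.HF D μ) a b hF hcmp
  obtain ⟨u, lam, hu, hxk⟩ := hx
  obtain ⟨e, he1, he2⟩ := Pool.Agent.Y264.QR.tBr M μ D hD i a b hSf hi ha hB hF φ u lam
      ⟨hu.eig, hu.mono, hu.orth, hu.total⟩
  have hmm : Ev a (b φ) k = lam k :=
      Pool.Agent.Y592.QE.mm _ a (b φ) (hF φ) e lam he2 k
  rw [hxk, ← hmm]
  have h1 := hnn φ k
  have h2 : 0 ≤ (area μ φ).real univ / (4 * π) := by
    have := Real.pi_pos
    positivity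
  exact mul_nonneg h2 h1

theorem avoid (hD : D.IsSurf μ) (hiso : ∀ i, ∀ z ∈ D.T i, ∃ c : ℝ, ∀ v, ‖D.A i z v‖ = c * ‖v‖)
    (B : Type) [AddCommGroup B] [Module ℝ B] [TopologicalSpace B] [IsTopologicalAddGroup B]
    [ContinuousSMul ℝ B] [BaireSpace B] (ι : B →L[ℝ] C(M, ℝ)) (hι : DenseRange ι)
    (n : ℕ) (N : Set (Fin n → ℝ)) (hN : IsMeagre N) :
    ∀ᶠ b in residual B, ∀ x, IsUnfolded D μ (ι b) x →
      ∀ p : Fin n → ℕ, Function.Injective p → (∀ l, 0 < x (p l)) → x ∘ p ∉ N := by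
  have h4 : (4 * π)⁻¹ ≠ 0 := by
    have := Real.pi_pos
    positivity
  filter_upwards [(Pool.Agent.Q233.GLV.ptop2 μ D hD hiso B ι hι).2 n _ (meagre_scale h4 hN)]
    with b hb x hx p hp hpos hmem
  obtain ⟨u, lam, hu, hxk⟩ := hx
  have hA : 0 ≤ (area μ (ι b)).real univ / (4 * π) := by
    have := Real.pi_pos
    positivity
  refine hb u lam ⟨hu.eig, hu.mono, hu.orth, hu.total⟩ p hp (fun l => ?_) ?_
  · have h1 := hpos l
    rw [hxk] at h1
    by_contra hle
    exact absurd h1 (not_lt.2 (mul_nonpos_of_nonneg_of_nonpos hA (not_lt.1 hle)))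
  · rw [mem_preimage]
    convert hmem using 1
    funext l
    simp only [Pi.smul_apply, Function.comp_apply, smul_eq_mul, hxk]
    show (4 * π)⁻¹ * ((area μ (ι b)).real univ * lam (p l)) = _
    ring

end Pool.Agent.L5helper74.RM
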