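import Mathlib

/-!
# Time averages of the powers of a spectral form factor
-/

set_option autoImplicit false

open Set Filter Topology MeasureTheory

noncomputable section

namespace Pool.Agent.L5helper74.RM

/-- the average of a cosine -/
lemma avg_cos (θ : ℝ) :
    Tendsto (fun T : ℝ => (∫ t in (0:ℝ)..T, Real.cos (2 * Real.pi * t * θ)) / T) atTop
      (𝓝 (if θ = 0 then 1 else 0)) := by
  split_ifs with h
  · subst h
    refine tendsto_const_nhds.congr' ?_
    filter_upwards [eventually_gt_atTop 0] with T hT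
    simp [hT.ne']
  · have h2 : (2 * Real.pi * θ) ≠ 0 := by
      have := Real.pi_pos
      positivity
    have h1 : ∀ T : ℝ, (∫ t in (0:ℝ)..T, Real.cos (2 * Real.pi * t * θ)) =
        (2 * Real.pi * θ)⁻¹ * Real.sin (2 * Real.pi * θ * T) := by
      intro T
      have h3 : (fun t : ℝ => Real.cos (2 * Real.pi * t * θ)) =
          fun t => Real.cos ((2 * Real.pi * θ) * t) := by
        funext t; congr 1; ring
      rw [h3, intervalIntegral.integral_comp_mul_left (fun y => Real.cos y) h2]
      simp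
    have h4 : Tendsto (fun T : ℝ => |(2 * Real.pi * θ)⁻¹| / T) atTop (𝓝 0) :=
      tendsto_const_nhds.div_atTop tendsto_id
    refine squeeze_zero_norm' ?_ h4
    filter_upwards [eventually_gt_atTop 0] with T hT
    rw [h1, Real.norm_eq_abs, abs_div, abs_mul, abs_of_pos hT]
    refine div_le_div_of_nonneg_right ?_ hT.le
    exact mul_le_of_le_one_right (abs_nonneg _) (Real.abs_sin_le_one _)

/-- the form factor at time `t` of the levels `x k`, `k ∈ A` -/
def ff (x : ℕ → ℝ) (A : Finset ℕ) (t : ℝ) : ℝ :=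
  ‖∑ k ∈ A, Complex.exp (2 * Real.pi * t * x k * Complex.I)‖ ^ 2 / A.card

lemma ff_pow (x : ℕ → ℝ) (A : Finset ℕ) (t : ℝ) (m : ℕ) :
    ff x A t ^ m = (∑ p ∈ Fintype.piFinset (fun _ : Fin m => A),
      ∑ q ∈ Fintype.piFinset (fun _ : Fin m => A),
        Real.cos (2 * Real.pi * t * (∑ i, x (p i) - ∑ i, x (q i)))) / (A.card : ℝ) ^ m := by
  unfold ff
  rw [div_pow]
  congr 1
  have h1 : (((‖∑ k ∈ A, Complex.exp (2 * Real.pi * t * x k * Complex.I)‖ ^ 2) ^ m : ℝ) : ℂ) =
      (∑ k ∈ A, Complex.exp (2 * Real.pi * t * x k * Complex.I)) ^ m *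
        (starRingEnd ℂ) ((∑ k ∈ A, Complex.exp (2 * Real.pi * t * x k * Complex.I)) ^ m) := by
    rw [map_pow, ← mul_pow, Complex.mul_conj, Complex.normSq_eq_norm_sq]
    push_cast
    rfl
  have h2 : (∑ k ∈ A, Complex.exp (2 * Real.pi * t * x k * Complex.I)) ^ m =
      ∑ p ∈ Fintype.piFinset (fun _ : Fin m => A),
        Complex.exp (((2 * Real.pi * t * ∑ i, x (p i) : ℝ) : ℂ) * Complex.I) := by
    have h3 := Finset.prod_univ_sum (fun _ : Fin m => A)
      (fun (_ : Fin m) (k : ℕ) => Complex.exp (2 * Real.pi * t * x k * Complex.I))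
    rw [Finset.prod_const, Finset.card_univ, Fintype.card_fin] at h3
    rw [h3]
    refine Finset.sum_congr rfl fun p _ => ?_
    rw [← Complex.exp_sum]
    congr 1
    push_cast
    rw [Finset.mul_sum, Finset.sum_mul]
  have h4 : (((‖∑ k ∈ A, Complex.exp (2 * Real.pi * t * x k * Complex.I)‖ ^ 2) ^ m : ℝ)) =
      ((∑ k ∈ A, Complex.exp (2 * Real.pi * t * x k * Complex.I)) ^ m *
        (starRingEnd ℂ) ((∑ k ∈ A, Complex.exp (2 * Real.pi * t * x k * Complex.I)) ^ m)).re := by
    rw [← h1, Complex.ofReal_re]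
  rw [h4, h2, map_sum, Finset.sum_mul_sum, Complex.re_sum]
  refine Finset.sum_congr rfl fun p _ => ?_
  rw [Complex.re_sum]
  refine Finset.sum_congr rfl fun q _ => ?_
  rw [← Complex.exp_conj, map_mul, Complex.conj_ofReal, Complex.conj_I, ← Complex.exp_add]
  have h5 : ((2 * Real.pi * t * ∑ i, x (p i) : ℝ) : ℂ) * Complex.I +
      ((2 * Real.pi * t * ∑ i, x (q i) : ℝ) : ℂ) * -Complex.I =
      ((2 * Real.pi * t * (∑ i, x (p i) - ∑ i, x (q i)) : ℝ) : ℂ) * Complex.I := by
    push_cast
    ring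
  rw [h5, Complex.exp_ofReal_mul_I_re]

/-- pairs of tuples with the same sum of levels -/
lemma avg_ff (x : ℕ → ℝ) (A : Finset ℕ) (m : ℕ) :
    Tendsto (fun T : ℝ => (∫ t in (0:ℝ)..T, ff x A t ^ m) / T) atTop
      (𝓝 ((∑ p ∈ Fintype.piFinset (fun _ : Fin m => A),
        (((Fintype.piFinset (fun _ : Fin m => A)).filter
          fun q => ∑ i, x (p i) - ∑ i, x (q i) = 0).card : ℝ)) / (A.card : ℝ) ^ m)) := by
  have h1 : ∀ T : ℝ, (∫ t in (0:ℝ)..T, ff x A t ^ m) / T =
      (∑ p ∈ Fintype.piFinset (fun _ : Fin m => A), ∑ q ∈ Fintype.piFinset (fun _ : Fin m => A),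
        (∫ t in (0:ℝ)..T, Real.cos (2 * Real.pi * t * (∑ i, x (p i) - ∑ i, x (q i)))) / T) /
          (A.card : ℝ) ^ m := by
    intro T
    simp only [ff_pow]
    rw [intervalIntegral.integral_div, intervalIntegral.integral_finset_sum]
    · simp only [Finset.sum_div, div_right_comm]
      refine Finset.sum_congr rfl fun p _ => ?_
      rw [intervalIntegral.integral_finset_sum]
      · simp only [Finset.sum_div, div_right_comm]
      · intro q _
        exact (Continuous.intervalIntegrable (by fun_prop) _ _)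
    · intro p _
      exact (Continuous.intervalIntegrable (by fun_prop) _ _)
  simp only [h1]
  refine Tendsto.div_const ?_ _
  refine tendsto_finsetSum _ fun p _ => ?_
  have h2 : (((Fintype.piFinset (fun _ : Fin m => A)).filter
          fun q => ∑ i, x (p i) - ∑ i, x (q i) = 0).card : ℝ) =
      ∑ q ∈ Fintype.piFinset (fun _ : Fin m => A),
        (if ∑ i, x (p i) - ∑ i, x (q i) = 0 then (1 : ℝ) else 0) := by
    rw [Finset.sum_boole]
  rw [h2]
  exact tendsto_finsetSum _ fun q _ => avg_cos _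

end Pool.Agent.L5helper74.RM
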