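import Pool.Agent.L5helper74.RM.Avg

/-!
# Counting coincidences of sums of linearly independent levels
-/

set_option autoImplicit false

open Set Filter Topology MeasureTheory

noncomputable section

namespace Pool.Agent.L5helper74.RM

/-- integer relations between the levels of `A` are trivial -/
def Ind (x : ℕ → ℝ) (A : Finset ℕ) : Prop :=
  ∀ c : ℕ → ℤ, ∑ k ∈ A, (c k : ℝ) * x k = 0 → ∀ k ∈ A, c k = 0

lemma sum_tuple (x : ℕ → ℝ) (A : Finset ℕ) {m : ℕ} (p : Fin m → ℕ) (hp : ∀ i, p i ∈ A) :
    ∑ i, x (p i) = ∑ k ∈ A, (((Finset.univ.filter fun i => p i = k).card : ℤ) : ℝ) * x k := by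
  rw [← Finset.sum_fiberwise_of_maps_to (s := Finset.univ) (t := A) (g := p) (fun i _ => hp i)]
  refine Finset.sum_congr rfl fun k _ => ?_
  rw [Finset.sum_congr rfl (g := fun _ => x k) (fun i hi => by rw [(Finset.mem_filter.1 hi).2])]
  rw [Finset.sum_const, nsmul_eq_mul]
  push_cast
  rfl

lemma perm_of_sum {x : ℕ → ℝ} {A : Finset ℕ} (hA : Ind x A) {m : ℕ} {p q : Fin m → ℕ}
    (hp : ∀ i, p i ∈ A) (hq : ∀ i, q i ∈ A) (h : ∑ i, x (p i) - ∑ i, x (q i) = 0) :
    ∃ σ : Equiv.Perm (Fin m), q = p ∘ σ := by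
  rw [sum_tuple x A p hp, sum_tuple x A q hq, ← Finset.sum_sub_distrib] at h
  have h1 := hA (fun k => ((Finset.univ.filter fun i => p i = k).card : ℤ) -
    ((Finset.univ.filter fun i => q i = k).card : ℤ)) (by
      rw [← h]
      refine Finset.sum_congr rfl fun k _ => ?_
      push_cast
      ring)
  have h2 : ∀ k, (Finset.univ.filter fun i => q i = k).card =
      (Finset.univ.filter fun i => p i = k).card := by
    intro k
    by_cases hk : k ∈ A
    · have := h1 k hk
      omega
    · have h3 : (Finset.univ.filter fun i => q i = k) = ∅ :=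
        Finset.filter_eq_empty_iff.2 fun i _ h => hk (h ▸ hq i)
      have h4 : (Finset.univ.filter fun i => p i = k) = ∅ :=
        Finset.filter_eq_empty_iff.2 fun i _ h => hk (h ▸ hp i)
      rw [h3, h4]
  have h3 : ∀ k, Nonempty ({i // q i = k} ≃ {i // p i = k}) := by
    intro k
    refine ⟨Fintype.equivOfCardEq ?_⟩
    rw [Fintype.card_subtype, Fintype.card_subtype]
    exact h2 k
  refine ⟨Equiv.ofFiberEquiv fun k => (h3 k).some, ?_⟩
  funext i
  exact (Equiv.ofFiberEquiv_map (fun k => (h3 k).some) i).symm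

lemma sum_of_perm (x : ℕ → ℝ) {m : ℕ} (p : Fin m → ℕ) (σ : Equiv.Perm (Fin m)) :
    ∑ i, x (p i) - ∑ i, x ((p ∘ σ) i) = 0 := by
  rw [sub_eq_zero]
  exact (Equiv.sum_comp σ fun i => x (p i)).symm

lemma count_le {x : ℕ → ℝ} {A : Finset ℕ} (hA : Ind x A) {m : ℕ} {p : Fin m → ℕ}
    (hp : ∀ i, p i ∈ A) :
    ((Fintype.piFinset (fun _ : Fin m => A)).filter
      fun q => ∑ i, x (p i) - ∑ i, x (q i) = 0).card ≤ m.factorial := by
  classical
  have h1 : (Fintype.piFinset (fun _ : Fin m => A)).filter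
      (fun q => ∑ i, x (p i) - ∑ i, x (q i) = 0) ⊆
      (Finset.univ : Finset (Equiv.Perm (Fin m))).image (fun σ : Equiv.Perm (Fin m) => p ∘ σ) := by
    intro q hq
    rw [Finset.mem_filter, Fintype.mem_piFinset] at hq
    obtain ⟨σ, hσ⟩ := perm_of_sum hA hp hq.1 hq.2
    exact Finset.mem_image.2 ⟨σ, Finset.mem_univ _, hσ.symm⟩
  refine (Finset.card_le_card h1).trans (Finset.card_image_le.trans ?_)
  rw [Finset.card_univ, Fintype.card_perm, Fintype.card_fin]

lemma count_ge (x : ℕ → ℝ) {A : Finset ℕ} {m : ℕ} {p : Fin m → ℕ}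
    (hp : ∀ i, p i ∈ A) (hi : Function.Injective p) :
    m.factorial ≤ ((Fintype.piFinset (fun _ : Fin m => A)).filter
      fun q => ∑ i, x (p i) - ∑ i, x (q i) = 0).card := by
  classical
  have h1 : (Finset.univ : Finset (Equiv.Perm (Fin m))).image (fun σ : Equiv.Perm (Fin m) => p ∘ σ) ⊆
      (Fintype.piFinset (fun _ : Fin m => A)).filter
      (fun q => ∑ i, x (p i) - ∑ i, x (q i) = 0) := by
    intro q hq
    obtain ⟨σ, -, rfl⟩ := Finset.mem_image.1 hq
    rw [Finset.mem_filter, Fintype.mem_piFinset]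
    exact ⟨fun i => hp _, sum_of_perm x p σ⟩
  refine le_trans ?_ (Finset.card_le_card h1)
  rw [Finset.card_image_of_injective, Finset.card_univ, Fintype.card_perm, Fintype.card_fin]
  intro σ τ h
  ext i
  have := congrFun h i
  exact congrArg Fin.val (hi this)

lemma card_inj (A : Finset ℕ) (m : ℕ) :
    ((Fintype.piFinset (fun _ : Fin m => A)).filter Function.Injective).card =
      A.card.descFactorial m := by
  classical
  have h1 := Fintype.card_embedding_eq (α := Fin m) (β := A)
  rw [Fintype.card_fin, Fintype.card_coe] at h1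
  rw [← h1, ← Fintype.card_coe]
  refine Fintype.card_congr ?_
  refine
    { toFun := fun p => ⟨fun i => ⟨p.1 i, ?_⟩, ?_⟩
      invFun := fun f => ⟨fun i => (f i : ℕ), ?_⟩
      left_inv := ?_
      right_inv := ?_ }
  · have := p.2
    rw [Finset.mem_filter, Fintype.mem_piFinset] at this
    exact this.1 i
  · have := p.2
    rw [Finset.mem_filter] at this
    intro i j hij
    exact this.2 (Subtype.ext_iff.1 hij)
  · rw [Finset.mem_filter, Fintype.mem_piFinset]
    exact ⟨fun i => (f i).2, fun i j hij => f.injective (Subtype.ext hij)⟩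
  · intro p
    rfl
  · intro f
    rfl

/-- the moments of the form factor at late times -/
theorem moments {x : ℕ → ℝ} {A : Finset ℕ} (hA : Ind x A) (m : ℕ) :
    ∃ L : ℝ, Tendsto (fun T : ℝ => (∫ t in (0:ℝ)..T, ff x A t ^ m) / T) atTop (𝓝 L) ∧
      m.factorial * A.card.descFactorial m / (A.card : ℝ) ^ m ≤ L ∧ L ≤ m.factorial := by
  classical
  refine ⟨_, avg_ff x A m, ?_, ?_⟩
  · refine div_le_div_of_nonneg_right ?_ (by positivity)
    rw [← card_inj A m]
    rw [mul_comm, ← nsmul_eq_mul, ← Finset.sum_const]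
    refine le_trans ?_ (Finset.sum_le_sum_of_subset_of_nonneg
      (Finset.filter_subset Function.Injective _) fun _ _ _ => Nat.cast_nonneg _)
    refine Finset.sum_le_sum fun p hp => ?_
    rw [Finset.mem_filter, Fintype.mem_piFinset] at hp
    exact_mod_cast count_ge x hp.1 hp.2
  · refine div_le_of_le_mul₀ (by positivity) (by positivity) ?_
    have h1 : ∀ p ∈ Fintype.piFinset (fun _ : Fin m => A),
        (((Fintype.piFinset (fun _ : Fin m => A)).filter
          fun q => ∑ i, x (p i) - ∑ i, x (q i) = 0).card : ℝ) ≤ m.factorial := by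
      intro p hp
      rw [Fintype.mem_piFinset] at hp
      exact_mod_cast count_le hA hp
    refine (Finset.sum_le_sum h1).trans ?_
    rw [Finset.sum_const, Fintype.card_piFinset, nsmul_eq_mul]
    simp [mul_comm]

end Pool.Agent.L5helper74.RM
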