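import Pool.Agent.L5helper74.RM.Count

/-!
# Meagre sets of tuples: algebraic relations, absence of simultaneous recurrences
-/

set_option autoImplicit false

open Set Filter Topology MeasureTheory

noncomputable section

namespace Pool.Agent.L5helper74.RM

lemma nd_poly {n : ℕ} {P : MvPolynomial (Fin n) ℚ} (hP : P ≠ 0) :
    IsNowhereDense {y : Fin n → ℝ | MvPolynomial.aeval y P = 0} := by
  have h1 : ∀ y : Fin n → ℝ, MvPolynomial.aeval y P =
      MvPolynomial.eval y (MvPolynomial.map (algebraMap ℚ ℝ) P) := by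
    intro y
    rw [MvPolynomial.aeval_def, MvPolynomial.eval_map]
  have hcl : IsClosed {y : Fin n → ℝ | MvPolynomial.aeval y P = 0} := by
    simp only [h1]
    exact isClosed_eq (MvPolynomial.continuous_eval _) continuous_const
  rw [hcl.isNowhereDense_iff]
  by_contra hne
  obtain ⟨y, hy⟩ := nonempty_iff_ne_empty.2 hne
  rw [mem_interior_iff_mem_nhds, Metric.mem_nhds_iff] at hy
  obtain ⟨ε, hε, hb⟩ := hy
  refine hP ?_
  have h2 : MvPolynomial.map (algebraMap ℚ ℝ) P = MvPolynomial.map (algebraMap ℚ ℝ) 0 := by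
    rw [map_zero]
    refine MvPolynomial.funext_set (fun i => Metric.ball (y i) ε) (fun i => ?_) fun z hz => ?_
    · rw [Real.ball_eq_Ioo]
      exact Ioo_infinite (by linarith)
    · rw [map_zero, ← h1]
      refine hb ?_
      rw [ball_pi _ hε]
      exact hz
  exact MvPolynomial.map_injective _ (algebraMap ℚ ℝ).injective h2

/-- the tuples of real numbers which satisfy an algebraic equation over the rationals -/
lemma meagre_poly (n : ℕ) :
    IsMeagre {y : Fin n → ℝ | ∃ P : MvPolynomial (Fin n) ℚ, P ≠ 0 ∧ MvPolynomial.aeval y P = 0} := by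
  have h1 : {y : Fin n → ℝ | ∃ P : MvPolynomial (Fin n) ℚ, P ≠ 0 ∧ MvPolynomial.aeval y P = 0} =
      ⋃ P : {P : MvPolynomial (Fin n) ℚ // P ≠ 0},
        {y : Fin n → ℝ | MvPolynomial.aeval y P.1 = 0} := by
    ext y
    simp only [mem_ofPred_eq, mem_iUnion, Subtype.exists]
    constructor
    · rintro ⟨P, h, h'⟩
      exact ⟨P, h, h'⟩
    · rintro ⟨P, h, h'⟩
      exact ⟨P, h, h'⟩
  rw [h1]
  have hc : Countable (MvPolynomial (Fin n) ℚ) := by
    rw [← Cardinal.mk_le_aleph0_iff]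
    refine MvPolynomial.cardinalMk_le_max.trans ?_
    simp
  have : Countable {P : MvPolynomial (Fin n) ℚ // P ≠ 0} := inferInstance
  exact isMeagre_iUnion fun P => (nd_poly P.2).isMeagre

/-- the tuples which are not simultaneously very close to integers at arbitrarily large times -/
lemma meagre_rec (ψ : ℕ → ℝ) (hψ : ∀ q, 0 < ψ q) (n : ℕ) :
    IsMeagre {y : Fin n → ℝ |
      ¬ ∃ᶠ q : ℕ in atTop, ∀ l, |q * y l - round (q * y l)| < ψ q} := by
  have h1 : {y : Fin n → ℝ | ¬ ∃ᶠ q : ℕ in atTop, ∀ l, |q * y l - round (q * y l)| < ψ q} ⊆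
      ⋃ Q : ℕ, {y : Fin n → ℝ | ∃ q, Q ≤ q ∧ ∃ a : Fin n → ℤ, ∀ l, |q * y l - a l| < ψ q}ᶜ := by
    intro y hy
    rw [mem_ofPred_eq, Filter.frequently_atTop] at hy
    push Not at hy
    obtain ⟨Q, hQ⟩ := hy
    rw [mem_iUnion]
    refine ⟨Q, ?_⟩
    rintro ⟨q, hq, a, ha⟩
    obtain ⟨l, hl⟩ := hQ q hq
    have h2 := round_le ((q : ℝ) * y l) (a l)
    linarith [ha l]
  refine (isMeagre_iUnion fun Q => ?_).mono h1
  have hopen : IsOpen {y : Fin n → ℝ |
      ∃ q, Q ≤ q ∧ ∃ a : Fin n → ℤ, ∀ l, |q * y l - a l| < ψ q} := by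
    have h2 : {y : Fin n → ℝ | ∃ q, Q ≤ q ∧ ∃ a : Fin n → ℤ, ∀ l, |q * y l - a l| < ψ q} =
        ⋃ q : ℕ, ⋃ _ : Q ≤ q, ⋃ a : Fin n → ℤ,
          {y : Fin n → ℝ | ∀ l, |(q : ℝ) * y l - (a l : ℝ)| < ψ q} := by
      ext y
      simp only [mem_ofPred_eq, mem_iUnion, exists_prop]
    rw [h2]
    refine isOpen_iUnion fun q => isOpen_iUnion fun _ => isOpen_iUnion fun a => ?_
    have h3 : {y : Fin n → ℝ | ∀ l, |q * y l - a l| < ψ q} =
        ⋂ l, {y : Fin n → ℝ | |q * y l - a l| < ψ q} := by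
      ext y
      simp
    rw [h3]
    refine isOpen_iInter_of_finite fun l => ?_
    exact isOpen_lt (by fun_prop) continuous_const
  refine IsNowhereDense.isMeagre ?_
  rw [IsClosed.isNowhereDense_iff hopen.isClosed_compl, interior_compl]
  rw [compl_empty_iff]
  refine Dense.closure_eq ?_
  rw [Metric.dense_iff]
  intro y ε hε
  obtain ⟨q, hq⟩ := exists_nat_gt (max (Q : ℝ) (1 / ε))
  have hq1 : (Q : ℝ) < q := (le_max_left _ _).trans_lt hq
  have hq2 : 1 / ε < q := (le_max_right _ _).trans_lt hq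
  have hq0 : (0 : ℝ) < q := (by positivity : (0 : ℝ) < 1 / ε).trans hq2
  refine ⟨fun l => (round ((q : ℝ) * y l) : ℝ) / q, ?_, q, by exact_mod_cast hq1.le,
    fun l => round ((q : ℝ) * y l), fun l => ?_⟩
  · rw [Metric.mem_ball, dist_pi_lt_iff hε]
    intro l
    rw [Real.dist_eq]
    have h3 : (round ((q : ℝ) * y l) : ℝ) / q - y l = -(((q : ℝ) * y l) - round ((q : ℝ) * y l)) / q := by
      field_simp
      ring
    rw [h3, abs_div, abs_neg, abs_of_pos hq0]
    have h4 := abs_sub_round ((q : ℝ) * y l)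
    rw [div_lt_iff₀ hq0]
    have h5 : 1 < ε * q := by
      rw [div_lt_iff₀ hε] at hq2
      linarith
    linarith
  · have h3 : (q : ℝ) * ((round ((q : ℝ) * y l) : ℝ) / q) = round ((q : ℝ) * y l) := by
      field_simp
    rw [h3, sub_self, abs_zero]
    exact hψ q

/-- scaling of meagre sets -/
lemma meagre_scale {n : ℕ} {c : ℝ} (hc : c ≠ 0) {N : Set (Fin n → ℝ)} (hN : IsMeagre N) :
    IsMeagre ((fun y : Fin n → ℝ => c • y) ⁻¹' N) :=
  hN.preimage_of_isOpenMap (continuous_const_smul c) (isOpenMap_smul₀ hc)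

/-- algebraic independence of all positive levels from that of all tuples -/
lemma indep_of {x : ℕ → ℝ} (h : ∀ n (p : Fin n → ℕ), Function.Injective p →
    (∀ l, 0 < x (p l)) →
      ¬ ∃ P : MvPolynomial (Fin n) ℚ, P ≠ 0 ∧ MvPolynomial.aeval (x ∘ p) P = 0) :
    AlgebraicIndependent ℚ fun k : {k : ℕ // 0 < x k} => x k := by
  rw [algebraicIndependent_iff]
  intro P hP
  obtain ⟨n, f, hf, P, rfl⟩ := MvPolynomial.exists_fin_rename P
  by_contra hne
  refine h n (fun i => (f i : ℕ)) (fun i j hij => hf (Subtype.ext hij)) (fun l => (f l).2)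
    ⟨P, fun h0 => hne (by rw [h0, map_zero]), ?_⟩
  rw [MvPolynomial.aeval_rename] at hP
  exact hP

/-- algebraically independent levels have no integer relations -/
lemma ind_of_alg {x : ℕ → ℝ} (h : AlgebraicIndependent ℚ fun k : {k : ℕ // 0 < x k} => x k)
    {A : Finset ℕ} (hA : ∀ k ∈ A, 0 < x k) : Ind x A := by
  intro c hc k hk
  have h1 := h.linearIndependent
  rw [linearIndependent_iff'] at h1
  have h2 := h1 (A.subtype fun k => 0 < x k) (fun k => (c k : ℚ)) (by
    refine Eq.trans ?_ hc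
    rw [Finset.sum_subtype_of_mem (p := fun k => 0 < x k) (fun k => (c k : ℚ) • x k) hA]
    refine Finset.sum_congr rfl fun k _ => ?_
    rw [Rat.smul_def]
    push_cast
    rfl) ⟨k, hA k hk⟩ (Finset.mem_subtype.2 hk)
  exact_mod_cast h2

end Pool.Agent.L5helper74.RM
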